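import Mathlib
import Pool.Agent.W973.IP.Defs

/-!
# Relation for each coordinate of Fritz John points
-/

set_option autoImplicit false

namespace Pool.Agent.W376.IP
open Pool.Agent.W973.IP MvPolynomial

/-! ### Polynomial functions of bounded degree -/

theorem BD_const {ι : Type} (q : ℚ) : BD ℚ 1 (fun _ : ι → ℝ => (q : ℝ)) := by
  refine ⟨MvPolynomial.C q, fun i => ?_, fun y => ?_⟩
  · rw [degreeOf_C]
    exact Nat.zero_le 1
  · rw [aeval_C, eq_ratCast]

theorem BD_coord {ι : Type} (t : ι) : BD ℚ 1 (fun y : ι → ℝ => y t) := by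
  classical
  refine ⟨MvPolynomial.X t, fun i => ?_, fun y => ?_⟩
  · rw [degreeOf_X]
    split_ifs
    · exact le_refl 1
    · exact Nat.zero_le 1
  · rw [aeval_X]

theorem BD_sub {ι : Type} {d : ℕ} {f g : (ι → ℝ) → ℝ} (hf : BD ℚ d f) (hg : BD ℚ d g) :
    BD ℚ d (fun y => f y - g y) := by
  obtain ⟨p, hp, hp'⟩ := hf
  obtain ⟨q, hq, hq'⟩ := hg
  refine ⟨p - q, fun i => ?_, fun y => ?_⟩
  · exact (degreeOf_sub_le i p q).trans (max_le (hp i) (hq i))
  · simp only [map_sub, hp', hq']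

theorem BD_sum {ι α : Type} {d : ℕ} (s : Finset α) (f : α → (ι → ℝ) → ℝ)
    (hf : ∀ x, BD ℚ d (f x)) : BD ℚ d (fun y => ∑ x ∈ s, f x y) := by
  classical
  choose p hp hp' using hf
  refine ⟨∑ x ∈ s, p x, fun i => ?_, fun y => ?_⟩
  · exact (degreeOf_sum_le i s p).trans (Finset.sup_le fun x _ => hp x i)
  · simp only [map_sum, hp']

/-! ### Numerical estimate -/

theorem num (n : ℕ) : (dd n * (fa n + 1)) ^ fa n ≤ 2 ^ bb n - 1 := by
  have h1 : dd n ≤ 2 ^ (b0 n + 1 + 30 * (n + 1) ^ 3) := by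
    unfold dd NN
    generalize 30 * (n + 1) ^ 3 = m
    have hm : m + 1 ≤ 2 ^ m := Nat.lt_two_pow_self
    have hA : 1 ≤ 2 ^ (b0 n + 1) := Nat.one_le_two_pow
    have h2 : 2 * 2 ^ b0 n = 2 ^ (b0 n + 1) := by ring
    rw [h2, pow_add _ (b0 n + 1) m]
    calc 2 ^ (b0 n + 1) + m ≤ 2 ^ (b0 n + 1) * 1 + 2 ^ (b0 n + 1) * m := by
          rw [mul_one]
          exact Nat.add_le_add_left (Nat.le_mul_of_pos_left m hA) _
      _ = 2 ^ (b0 n + 1) * (m + 1) := by ring
      _ ≤ 2 ^ (b0 n + 1) * 2 ^ m := Nat.mul_le_mul_left _ hm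
  have h2 : fa n + 1 ≤ 2 ^ (fa n + 2) :=
    (Nat.le_succ _).trans (Nat.lt_two_pow_self (n := fa n + 2)).le
  have h3 : dd n * (fa n + 1) ≤ 2 ^ (b0 n + 30 * (n + 1) ^ 3 + fa n + 3) := by
    calc dd n * (fa n + 1) ≤ 2 ^ (b0 n + 1 + 30 * (n + 1) ^ 3) * 2 ^ (fa n + 2) :=
          Nat.mul_le_mul h1 h2
      _ = 2 ^ (b0 n + 30 * (n + 1) ^ 3 + fa n + 3) := by
          rw [← pow_add]
          congr 1
          ring
  have h4 : (dd n * (fa n + 1)) ^ fa n ≤
      2 ^ ((b0 n + 30 * (n + 1) ^ 3 + fa n + 3) * (fa n + 1)) := by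
    calc (dd n * (fa n + 1)) ^ fa n ≤ (2 ^ (b0 n + 30 * (n + 1) ^ 3 + fa n + 3)) ^ fa n :=
          Nat.pow_le_pow_left h3 _
      _ ≤ (2 ^ (b0 n + 30 * (n + 1) ^ 3 + fa n + 3)) ^ (fa n + 1) :=
          Nat.pow_le_pow_right Nat.one_le_two_pow (Nat.le_succ _)
      _ = _ := by rw [← pow_mul]
  have h5 : 2 ^ bb n = 2 * 2 ^ ((b0 n + 30 * (n + 1) ^ 3 + fa n + 3) * (fa n + 1)) := by
    unfold bb
    rw [pow_succ]
    ring
  have h6 : 1 ≤ 2 ^ ((b0 n + 30 * (n + 1) ^ 3 + fa n + 3) * (fa n + 1)) := Nat.one_le_two_pow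
  omega

/-! ### Decoding of the slots -/

/-- The index of a solved feature. -/
def dec {n r : ℕ} (s : Fin (MM n)) : Ft n → Option (JJ n (r + 1))
  | Sum.inl l => some (Sum.inl l)
  | Sum.inr (o, s', d) =>
    if h : s' = s ∧ (d : ℕ) < 2 * (r + 1) then
      some (Sum.inr (o, (⟨(d : ℕ) / 2, by omega⟩, ⟨(d : ℕ) % 2, by omega⟩)))
    else none

theorem dec_sl {n r : ℕ} (hr : r + 1 ≤ n + 1) (s : Fin (MM n)) (o : Option (Fin n))
    (i : Fin (r + 1)) (ε : Fin 2) :
    dec (r := r) s (sl hr s o i ε) = some (Sum.inr (o, (i, ε))) := by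
  have h : True ∧ 2 * (i : ℕ) + (ε : ℕ) < 2 * (r + 1) := ⟨trivial, by omega⟩
  unfold dec sl
  simp only
  rw [dif_pos h]
  simp only [Option.some.injEq, Sum.inr.injEq, Prod.mk.injEq, true_and]
  refine ⟨Fin.ext ?_, Fin.ext ?_⟩
  · change (2 * (i : ℕ) + (ε : ℕ)) / 2 = (i : ℕ)
    omega
  · change (2 * (i : ℕ) + (ε : ℕ)) % 2 = (ε : ℕ)
    omega

theorem dec_some {n r : ℕ} (hr : r + 1 ≤ n + 1) (s : Fin (MM n)) (a : Ft n → ℝ) (t : Ft n)
    (J : JJ n (r + 1)) (h : dec s t = some J) : xsol hr s a J = a t := by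
  rcases t with l | ⟨o, s', d⟩
  · simp only [dec, Option.some.injEq] at h
    subst h
    rfl
  · simp only [dec] at h
    split_ifs at h with h'
    obtain ⟨h1, h2⟩ := h'
    rw [Option.some.injEq] at h
    subst h
    subst h1
    simp only [xsol]
    congr 4
    ext
    simp only [dg]
    omega

theorem dec_uns {n r : ℕ} (s : Fin (MM n)) (t : Tx n) (h : uns (s : ℕ) (r + 1) t) :
    dec (r := r) s (Sum.inr t) = none := by
  obtain ⟨o, s', d⟩ := t
  simp only [dec]
  rw [dif_neg]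
  rintro ⟨h1, h2⟩
  exact h ⟨by rw [h1], h2⟩

/-- The values of the slots. -/
def yy {n r : ℕ} (s : Fin (MM n)) (a : Ft n → ℝ) (v : ℝ) (u : Vec n) (w : Fin (r + 1) → Vec n)
    (lam : Fin (r + 1) → ℝ) (z : Option (Fin n) → Fin (r + 1) → ℝ) (t : Ft n) : ℝ :=
  match dec (r := r) s t with
  | none => a t
  | some (Sum.inl l) => u l
  | some (Sum.inr (o, (i, ε))) =>
    if ε = 1 then z o i else o.elim (if i = 0 then v else lam i) (w i)

theorem rhs_congr {n r : ℕ} (P : MvPolynomial (Fin n ⊕ Fin n) ℚ) (s : ℕ) (c e v : ℝ)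
    (u : Vec n) (w : Fin r → Vec n) (lam : Fin r → ℝ) (a a' : Tx n → ℝ)
    (z : Option (Fin n) → Fin r → ℝ) (h : ∀ t, uns s r t → a t = a' t) :
    rhs P s c e v u w lam a z = rhs P s c e v u w lam a' z := by
  have key : ∀ f : Tx n → ℝ, (∑ t : Tx n, if uns s r t then a t * f t else 0) =
      ∑ t : Tx n, if uns s r t then a' t * f t else 0 := by
    intro f
    refine Finset.sum_congr rfl fun t _ => ?_
    by_cases ht : uns s r t
    · rw [if_pos ht, if_pos ht, h t ht]
    · rw [if_neg ht, if_neg ht]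
  funext J
  rcases J with l | ⟨_ | j, i, ε⟩
  · rfl
  · simp only [rhs, key]
  · simp only [rhs]
    rw [key fun t => (((t.2.2 : ℕ) : ℝ) * Lf (t.2.1 : ℕ) (w i) ^ ((t.2.2 : ℕ) - 1) *
              (((t.2.1 : ℕ) : ℝ) ^ (j : ℕ)) * ow (w i) t.1 +
              Lf (t.2.1 : ℕ) (w i) ^ (t.2.2 : ℕ) * (if t.1 = some j then 1 else 0))]

theorem par2 (h1 : S_DC) (hIDX : S_IDX) (hMAT : S_MAT) (hSYS : S_SYS) (hBDG : S_BDG) :
    S_PAR2 := by
  intro n P hP c e he r s hrn T
  have hr : r + 1 ≤ n + 1 := by omega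
  have hcard : Fintype.card (Ft n) = fa n := (hIDX n).2.2
  -- the degree bounds
  have hpl : ∀ i, BD ℚ 1 (fun y : Ft n → ℝ => pl hr s y i) := by
    intro i
    unfold pl
    by_cases hi : i = 0
    · simp only [if_pos hi]
      have h2 : BD ℚ 1 (fun _ : Ft n → ℝ => (1 : ℝ)) := by
        have h3 := BD_const (ι := Ft n) 1
        simpa using h3
      exact BD_sub h2 (BD_sum Finset.univ _ fun k => BD_coord _)
    · simp only [if_neg hi]
      exact BD_coord _
  obtain ⟨bQ, bS, bM⟩ := hBDG (Ft n) n (r + 1) P hP hr (s : ℕ) (fun _ => (c : ℝ))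
    (fun _ => (e : ℝ)) (pv hr s) (fun l y => pu y l) (fun i j y => pw hr s y i j)
    (fun i y => pl hr s y i) (fun t y => y (Sum.inr t)) (fun o i y => pz hr s y o i)
    (BD_const c) (BD_const e) (BD_coord _) (fun l => BD_coord _) (fun i j => BD_coord _)
    hpl (fun t => BD_coord _) (fun o i => BD_coord _)
  let M : (Ft n → ℝ) → Matrix (JJ n (r + 1)) (JJ n (r + 1)) ℝ := fun y =>
    mat (s : ℕ) (e : ℝ) (pu y) (pw hr s y)
  let b : (Ft n → ℝ) → JJ n (r + 1) → ℝ := fun y =>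
    rhs P (s : ℕ) (c : ℝ) (e : ℝ) (pv hr s y) (pu y) (pw hr s y) (pl hr s y)
      (fun t => y (Sum.inr t)) (pz hr s y)
  let Q : (Ft n → ℝ) → ℝ := fun y => (M y).det
  let cc : (Ft n → ℝ) → ℝ := fun y => co (pv hr s y) (pu y) (pw hr s y) (pl hr s y) T
  have hcc : BD ℚ 1 cc := by
    rcases T with _ | l | p | i
    · exact BD_coord _
    · exact BD_coord _
    · exact BD_coord _
    · exact hpl i
  let F : Ft n ⊕ Unit → (Ft n → ℝ) → ℝ := Sum.elim
    (fun t => (dec (r := r) s t).elim (fun y => y t * Q y)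
      (fun J y => ((M y).adjugate.mulVec (b y)) J)) (fun _ y => cc y * Q y)
  have hF : ∀ x, BD ℚ (dd n) (F x) := by
    rintro (t | _)
    · change BD ℚ (dd n) ((dec (r := r) s t).elim (fun y => y t * Q y)
        (fun J y => ((M y).adjugate.mulVec (b y)) J))
      rcases dec (r := r) s t with _ | J
      · exact bM (fun y => y t) (BD_coord t)
      · exact bS J
    · exact bM cc hcc
  have hQ : BD ℚ (dd n) Q := bQ
  have hdd : 1 ≤ dd n := by
    unfold dd
    have h2 : 1 ≤ NN n := Nat.one_le_two_pow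
    omega
  have hc : Fintype.card (Ft n ⊕ Unit) = Fintype.card (Ft n) + 1 := by
    rw [Fintype.card_sum (α := Ft n) (β := Unit), Fintype.card_unit]
  obtain ⟨R, hR0, hRd, hR⟩ := h1 ℚ (Ft n) (Ft n ⊕ Unit) (dd n) (2 ^ bb n - 1) F Q
    (by omega) hdd
    (by
      rw [hc, hcard]
      exact num n) hF hQ
  refine ⟨R, hR0, fun x => ?_, ?_⟩
  · have h2 := hRd x
    have h3 : 1 ≤ 2 ^ bb n := Nat.one_le_two_pow
    omega
  intro a v u w lam hFJ hinj
  -- the point
  let z : Option (Fin n) → Fin (r + 1) → ℝ := fun o i =>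
    ∑ p : Fin (r + 1) × Fin 2, (dg p : ℝ) * Lf (s : ℕ) (w i) ^ (dg p - 1) *
      xsol hr s a (Sum.inr (o, p))
  let y : Ft n → ℝ := yy s a v u w lam z
  have hys : ∀ (o : Option (Fin n)) (i : Fin (r + 1)) (ε : Fin 2), y (sl hr s o i ε) =
      if ε = 1 then z o i else o.elim (if i = 0 then v else lam i) (w i) := by
    intro o i ε
    change yy s a v u w lam z (sl hr s o i ε) = _
    unfold yy
    rw [dec_sl]
  have e1 : pu y = u := by
    funext l
    rfl
  have e2 : pw hr s y = w := by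
    funext i j
    unfold pw
    rw [hys]
    rfl
  have e3 : pv hr s y = v := by
    unfold pv
    rw [hys]
    simp
  have e4 : pz hr s y = z := by
    funext o i
    unfold pz
    rw [hys]
    simp
  have e5 : pl hr s y = lam := by
    funext i
    unfold pl
    by_cases hi : i = 0
    · rw [if_pos hi]
      have h2 : ∀ k : Fin r, y (sl hr s none k.succ 0) = lam k.succ := by
        intro k
        rw [hys]
        have h3 : (k.succ : Fin (r + 1)) ≠ 0 := Fin.succ_ne_zero k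
        simp [h3]
      simp only [h2]
      have h3 := hFJ.sum
      rw [Fin.sum_univ_succ] at h3
      rw [hi]
      linarith
    · rw [if_neg hi, hys]
      simp [hi]
  have e6 : ∀ t, uns (s : ℕ) (r + 1) t → a (Sum.inr t) = y (Sum.inr t) := by
    intro t ht
    change _ = yy s a v u w lam z (Sum.inr t)
    unfold yy
    rw [dec_uns s t ht]
  have hb : b y = (M y).mulVec (xsol hr s a) := by
    change rhs P (s : ℕ) (c : ℝ) (e : ℝ) (pv hr s y) (pu y) (pw hr s y) (pl hr s y)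
      (fun t => y (Sum.inr t)) (pz hr s y) =
      (mat (s : ℕ) (e : ℝ) (pu y) (pw hr s y)).mulVec (xsol hr s a)
    rw [e1, e2, e3, e4, e5, hSYS n (r + 1) hr P s a (c : ℝ) (e : ℝ) v u w lam hFJ]
    exact (rhs_congr P (s : ℕ) (c : ℝ) (e : ℝ) v u w lam _ _ z e6).symm
  have hdet : Q y ≠ 0 := by
    change (mat (s : ℕ) (e : ℝ) (pu y) (pw hr s y)).det ≠ 0
    rw [e1, e2]
    exact hMAT n (r + 1) (s : ℕ) (e : ℝ) u w (by exact_mod_cast he) hinj
  have hsol : (M y).adjugate.mulVec (b y) = fun J => Q y * xsol hr s a J := by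
    rw [hb, Matrix.mulVec_mulVec, Matrix.adjugate_mul, Matrix.smul_mulVec, Matrix.one_mulVec]
    rfl
  have hval : (fun x => F x y / Q y) = Sum.elim a fun _ => co v u w lam T := by
    funext x
    rcases x with t | _
    · change (dec (r := r) s t).elim (fun y => y t * Q y)
        (fun J y => ((M y).adjugate.mulVec (b y)) J) y / Q y = a t
      rcases hd : dec (r := r) s t with _ | J
      · change y t * Q y / Q y = a t
        rw [mul_div_assoc, div_self hdet, mul_one]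
        change yy s a v u w lam z t = a t
        unfold yy
        rw [hd]
      · change ((M y).adjugate.mulVec (b y)) J / Q y = a t
        rw [hsol]
        change Q y * xsol hr s a J / Q y = a t
        rw [dec_some hr s a t J hd, mul_comm, mul_div_assoc, div_self hdet, mul_one]
    · change cc y * Q y / Q y = co v u w lam T
      rw [mul_div_assoc, div_self hdet, mul_one]
      change co (pv hr s y) (pu y) (pw hr s y) (pl hr s y) T = _
      rw [e1, e2, e3, e5]
  rw [← hval]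
  exact hR y hdet

end Pool.Agent.W376.IP
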